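import Pool.Agent.V1154.CT.Up
import Pool.Agent.V1154.CT.Chain

/-!
# MP_6c0529: common convex characters of two trees and of two caterpillars

The minimum number `s n` of common convex characters of two semilabeled binary trees of size `n`
is not always attained by two caterpillars: `s 7 ≤ 125` while `c 7 ≥ 126`.
-/

namespace Pool.Agent.Results.MP_6c0529_co.SevenLeaves

open MP6c0529

theorem T0_internal' (v : Fin 12) :
    ((mkG nbT symT irrT).neighborSet v).ncard ≠ 1 ↔ 7 ≤ v.val := by
  have h : (mkG nbT symT irrT).neighborSet v =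
      ((Finset.univ.filter fun w => adjB nbT v w = true : Finset (Fin 12)) : Set (Fin 12)) := by
    ext w; simp [mkG]
  rw [h, Set.ncard_coe_finset, degT v]
  split_ifs with hv <;> simp <;> omega

theorem T0_internal (v : Fin 12) : (T0.G.neighborSet v).ncard ≠ 1 ↔ 7 ≤ v.val :=
  T0_internal' v

theorem T0_path : ∀ a b : Fin 5,
    adjB nbT ⟨7 + a.val, by omega⟩ ⟨7 + b.val, by omega⟩ = true ↔
      (a.val + 1 = b.val ∨ b.val + 1 = a.val) := by decide +kernel

theorem T0_caterpillar : T0.IsCaterpillar := by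
  refine ⟨5, ⟨RelIso.symm ?_⟩⟩
  refine
    { toFun := fun t => ⟨⟨7 + t.val, by omega⟩, (T0_internal _).mpr (Nat.le_add_right _ _)⟩
      invFun := fun v => ⟨v.val.val - 7, ?_⟩
      left_inv := ?_
      right_inv := ?_
      map_rel_iff' := ?_ }
  · have h : v.val.val < 12 := v.val.isLt
    omega
  · intro t
    apply Fin.ext
    show 7 + t.val - 7 = t.val
    omega
  · intro v
    apply Subtype.ext
    apply Fin.ext
    have h1 : 7 ≤ v.val.val := (T0_internal v.val).mp v.property
    show 7 + (v.val.val - 7) = v.val.val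
    omega
  · intro a b
    rw [SimpleGraph.pathGraph_adj]
    exact T0_path a b

/-- Two trees with seven leaves can have `125` common convex characters, while every two
caterpillars with seven leaves have at least `126`.  Hence `s n = c n` fails for `n = 7`. -/
theorem result : s 7 ≤ 125 ∧ 126 ≤ c 7 ∧ ¬ ∀ n : ℕ, 1 ≤ n → s n = c n := by
  have h1 : s 7 ≤ 125 := by
    refine le_trans (Nat.sInf_le ?_) upper_bound
    exact ⟨T0, F0, rfl⟩
  have h2 : 126 ≤ c 7 := by
    have hne : ({k | ∃ T F : SBTree 7, T.IsCaterpillar ∧ F.IsCaterpillar ∧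
        k = (T.convex ∩ F.convex).ncard} : Set ℕ).Nonempty :=
      ⟨_, T0, T0, T0_caterpillar, T0_caterpillar, rfl⟩
    refine le_csInf hne ?_
    rintro _ ⟨T, F, hT, hF, rfl⟩
    obtain ⟨σ, hσ⟩ := hasChain T hT
    obtain ⟨τ, hτ⟩ := hasChain F hF
    exact lower_chain T F σ τ hσ hτ
  refine ⟨h1, h2, fun h => ?_⟩
  have := h 7 (by norm_num)
  omega

end Pool.Agent.Results.MP_6c0529_co.SevenLeaves
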